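import Mathlib

/-!
A `T₁` space with a base of subinfinite rank is hereditarily metacompact. Without a separation axiom
this is false.
-/

set_option autoImplicit false

open Set TopologicalSpace Topology

namespace Pool.Agent.Results.MP_03f7b8_gt.SubinfiniteRank

universe u

/-- A family of sets has subinfinite rank if each of its subfamilies which consists of pairwise
incomparable sets and has a nonempty intersection is finite. -/
def HasSubinfiniteRank {X : Type u} (Γ : Set (Set X)) : Prop :=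
  ∀ Γ' ⊆ Γ, (∀ A ∈ Γ', ∀ B ∈ Γ', A ≠ B → ¬ A ⊆ B ∧ ¬ B ⊆ A) → (⋂₀ Γ').Nonempty → Γ'.Finite

/-- A space is metacompact if each of its open covers has an open refinement, which is a cover and
such that each point is in finitely many of its members. -/
def Metacompact (X : Type u) [TopologicalSpace X] : Prop :=
  ∀ 𝒰 : Set (Set X), (∀ U ∈ 𝒰, IsOpen U) → ⋃₀ 𝒰 = univ →
    ∃ 𝒱 : Set (Set X), (∀ V ∈ 𝒱, IsOpen V ∧ ∃ U ∈ 𝒰, V ⊆ U) ∧ ⋃₀ 𝒱 = univ ∧
      ∀ x, {V | V ∈ 𝒱 ∧ x ∈ V}.Finite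

section main

variable {X : Type u} {ℬ 𝒰 : Set (Set X)}

/-- No point is in all members of an infinite sequence of pairwise incomparable members of a family
of subinfinite rank. -/
lemma noseq (hℬ : HasSubinfiniteRank ℬ) (z : X) (f : ℕ → Set X) (hf : ∀ n, f n ∈ ℬ)
    (hz : ∀ n, z ∈ f n) (hinc : ∀ m n, m < n → ¬ f m ⊆ f n ∧ ¬ f n ⊆ f m) : False := by
  have h1 : ∀ m n, m ≠ n → ¬ f m ⊆ f n ∧ ¬ f n ⊆ f m := by
    intro m n hmn
    rcases lt_or_gt_of_ne hmn with h | h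
    · exact hinc m n h
    · exact (hinc n m h).symm
  have hinj : Function.Injective f := by
    intro m n hmn
    by_contra hne
    exact (h1 m n hne).1 hmn.subset
  have hfin : (range f).Finite := by
    refine hℬ (range f) (range_subset_iff.2 hf) ?_ ⟨z, ?_⟩
    · rintro _ ⟨m, rfl⟩ _ ⟨n, rfl⟩ hne
      exact h1 m n fun h => hne (congrArg f h)
    · rintro _ ⟨n, rfl⟩
      exact hz n
  exact infinite_range_of_injective hinj hfin

/-- The nonempty members of the base which are contained in `O` and in a member of the cover. -/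
def Sm (ℬ 𝒰 : Set (Set X)) (O : Set X) : Set (Set X) :=
  {B | B ∈ ℬ ∧ B.Nonempty ∧ B ⊆ O ∧ ∃ U ∈ 𝒰, B ⊆ U}

/-- `A` and `B` have an upper bound in `P`. -/
def Compat (P : Set (Set X)) (A B : Set X) : Prop := ∃ C ∈ P, A ⊆ C ∧ B ⊆ C

/-- The members of `P` above `A` are pairwise compatible. -/
def Good (P : Set (Set X)) (A : Set X) : Prop :=
  A ∈ P ∧ ∀ B ∈ P, ∀ C ∈ P, A ⊆ B → A ⊆ C → Compat P B C

lemma Compat.symm {P : Set (Set X)} {A B : Set X} (h : Compat P A B) : Compat P B A := by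
  obtain ⟨C, hC, h1, h2⟩ := h
  exact ⟨C, hC, h2, h1⟩

lemma Compat.refl {P : Set (Set X)} {A : Set X} (h : A ∈ P) : Compat P A A :=
  ⟨A, h, Subset.rfl, Subset.rfl⟩

lemma Compat.trans {P : Set (Set X)} {A B C : Set X} (hB : Good P B) (h1 : Compat P A B)
    (h2 : Compat P B C) : Compat P A C := by
  obtain ⟨D, hD, hAD, hBD⟩ := h1
  obtain ⟨E, hE, hBE, hCE⟩ := h2
  obtain ⟨F, hF, hDF, hEF⟩ := hB.2 D hD E hE hBD hBE
  exact ⟨F, hF, hAD.trans hDF, hCE.trans hEF⟩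

/-- Each member of `Sm ℬ 𝒰 O` is contained in a good member. -/
lemma exists_good (hℬ : HasSubinfiniteRank ℬ) (O : Set X) {A : Set X} (hA : A ∈ Sm ℬ 𝒰 O) :
    ∃ B, Good (Sm ℬ 𝒰 O) B ∧ A ⊆ B := by
  by_contra hcon
  push Not at hcon
  set P := Sm ℬ 𝒰 O with hP
  have h1 : ∀ B : {B // B ∈ P ∧ A ⊆ B}, ∃ C D : {B // B ∈ P ∧ A ⊆ B}, B.1 ⊆ C.1 ∧ B.1 ⊆ D.1 ∧
      ¬ Compat P C.1 D.1 := by
    rintro ⟨B, hB, hAB⟩
    have h2 : ¬ Good P B := fun h => hcon B h hAB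
    unfold Good at h2
    push Not at h2
    obtain ⟨C, hC, D, hD, hBC, hBD, hCD⟩ := h2 hB
    exact ⟨⟨C, hC, hAB.trans hBC⟩, ⟨D, hD, hAB.trans hBD⟩, hBC, hBD, hCD⟩
  choose c d hc hd hcd using h1
  let b : ℕ → {B // B ∈ P ∧ A ⊆ B} := fun n => Nat.rec ⟨A, hA, Subset.rfl⟩ (fun _ B => c B) n
  have hb : ∀ n, b (n + 1) = c (b n) := fun n => rfl
  have hmono : ∀ m n, m ≤ n → (b m).1 ⊆ (b n).1 := by
    intro m n hmn
    induction n, hmn using Nat.le_induction with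
    | base => exact Subset.rfl
    | succ n _ ih =>
      rw [hb]
      exact ih.trans (hc (b n))
  obtain ⟨z, hz⟩ := hA.2.1
  have hincomp : ∀ m n, m < n → ¬ Compat P (d (b m)).1 (d (b n)).1 := by
    rintro m n hmn ⟨E, hE, h3, h4⟩
    apply hcd (b m)
    refine ⟨E, hE, ?_, h3⟩
    rw [← hb]
    exact ((hmono (m + 1) n hmn).trans (hd (b n))).trans h4
  refine noseq hℬ z (fun n => (d (b n)).1) (fun n => (d (b n)).2.1.1) (fun n => (d (b n)).2.2 hz)
    fun m n hmn => ⟨fun h => ?_, fun h => ?_⟩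
  · exact hincomp m n hmn ⟨_, (d (b n)).2.1, h, Subset.rfl⟩
  · exact hincomp m n hmn ⟨_, (d (b m)).2.1, Subset.rfl, h⟩

/-- The union of the class of `A`. -/
def W (P : Set (Set X)) (A : Set X) : Set X := ⋃₀ {B | Good P B ∧ Compat P A B}

/-- The family of the unions of all classes. -/
def 𝒲 (ℬ 𝒰 : Set (Set X)) (O : Set X) : Set (Set X) :=
  {V | ∃ A, Good (Sm ℬ 𝒰 O) A ∧ V = W (Sm ℬ 𝒰 O) A}

lemma 𝒲_subset {O V : Set X} (hV : V ∈ 𝒲 ℬ 𝒰 O) : V ⊆ O := by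
  obtain ⟨A, _, rfl⟩ := hV
  exact sUnion_subset fun B hB => hB.1.1.2.2.1

lemma 𝒲_finite (hℬ : HasSubinfiniteRank ℬ) (O : Set X) (z : X) :
    {V | V ∈ 𝒲 ℬ 𝒰 O ∧ z ∈ V}.Finite := by
  by_contra hinf
  have hinf' : {V | V ∈ 𝒲 ℬ 𝒰 O ∧ z ∈ V}.Infinite := hinf
  set P := Sm ℬ 𝒰 O with hP
  let e := Set.Infinite.natEmbedding _ hinf'
  have h1 : ∀ n, ∃ A B, Good P A ∧ Good P B ∧ Compat P A B ∧ z ∈ B ∧ (e n).1 = W P A := by
    intro n
    obtain ⟨⟨A, hA, hAe⟩, hz⟩ := (e n).2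
    rw [hAe] at hz
    obtain ⟨B, hB, hzB⟩ := hz
    exact ⟨A, B, hA, hB.1, hB.2, hzB, hAe⟩
  choose A B hA hB hAB hz hAe using h1
  have hincomp : ∀ m n, m < n → ¬ Compat P (B m) (B n) := by
    intro m n hmn h
    have h2 : Compat P (A m) (A n) :=
      Compat.trans (hB n) (Compat.trans (hB m) (hAB m) h) (hAB n).symm
    have h3 : W P (A m) = W P (A n) := by
      unfold W
      congr 1
      ext C
      constructor
      · rintro ⟨h4, h5⟩
        exact ⟨h4, Compat.trans (hA m) h2.symm h5⟩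
      · rintro ⟨h4, h5⟩
        exact ⟨h4, Compat.trans (hA n) h2 h5⟩
    have h4 : e m = e n := Subtype.ext (by rw [hAe, hAe, h3])
    exact absurd (e.injective h4) hmn.ne
  refine noseq hℬ z B (fun n => (hB n).1.1) hz fun m n hmn => ⟨fun h => ?_, fun h => ?_⟩
  · exact hincomp m n hmn ⟨_, (hB n).1, h, Subset.rfl⟩
  · exact hincomp m n hmn ⟨_, (hB m).1, Subset.rfl, h⟩

/-- Finite subsets of the unions of classes are contained in members of the class. -/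
lemma 𝒲_directed (hℬ : HasSubinfiniteRank ℬ) {O V : Set X} (hV : V ∈ 𝒲 ℬ 𝒰 O) (F : Finset X)
    (hF : (F : Set X) ⊆ V) : ∃ B ∈ ℬ, B ⊆ V ∧ (F : Set X) ⊆ B ∧ ∃ U ∈ 𝒰, B ⊆ U := by
  classical
  obtain ⟨A, hA, rfl⟩ := hV
  set P := Sm ℬ 𝒰 O with hP
  have key : ∃ B, Good P B ∧ Compat P A B ∧ (F : Set X) ⊆ B := by
    induction F using Finset.induction_on with
    | empty => exact ⟨A, hA, Compat.refl hA.1, by simp⟩
    | insert x F _ ih =>
      rw [Finset.coe_insert, insert_subset_iff] at hF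
      obtain ⟨B, hB, hAB, hFB⟩ := ih hF.2
      obtain ⟨C, hC, hxC⟩ := hF.1
      obtain ⟨D, hD, hBD, hCD⟩ := Compat.trans hA hAB.symm hC.2
      obtain ⟨E, hE, hDE⟩ := exists_good hℬ O hD
      refine ⟨E, hE, ?_, ?_⟩
      · exact Compat.trans hB hAB ⟨E, hE.1, hBD.trans hDE, Subset.rfl⟩
      · rw [Finset.coe_insert, insert_subset_iff]
        exact ⟨hDE (hCD hxC), hFB.trans (hBD.trans hDE)⟩
  obtain ⟨B, hB, hAB, hFB⟩ := key
  exact ⟨B, hB.1.1, subset_sUnion_of_mem ⟨hB, hAB⟩, hFB, hB.1.2.2.2⟩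

variable [TopologicalSpace X]

lemma 𝒲_cover (hb : IsTopologicalBasis ℬ) (hℬ : HasSubinfiniteRank ℬ) (hU : ∀ U ∈ 𝒰, IsOpen U)
    (hc : ⋃₀ 𝒰 = univ) {O : Set X} (hO : IsOpen O) {x : X} (hx : x ∈ O) :
    ∃ V ∈ 𝒲 ℬ 𝒰 O, x ∈ V := by
  obtain ⟨U, hU', hxU⟩ : x ∈ ⋃₀ 𝒰 := by rw [hc]; trivial
  obtain ⟨B, hB, hxB, hBO⟩ := hb.exists_subset_of_mem_open (mem_inter hx hxU)
    (hO.inter (hU U hU'))
  obtain ⟨C, hC, hBC⟩ := exists_good (𝒰 := 𝒰) hℬ O
    (show B ∈ Sm ℬ 𝒰 O from ⟨hB, ⟨x, hxB⟩, hBO.trans inter_subset_left, U, hU',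
      hBO.trans inter_subset_right⟩)
  exact ⟨_, ⟨C, hC, rfl⟩, C, ⟨hC, Compat.refl hC.1⟩, hBC hxB⟩

lemma 𝒲_open (hb : IsTopologicalBasis ℬ) {O V : Set X} (hV : V ∈ 𝒲 ℬ 𝒰 O) : IsOpen V := by
  obtain ⟨A, _, rfl⟩ := hV
  exact isOpen_sUnion fun B hB => hb.isOpen hB.1.1.1

/-- `V` is a child of `O`: the set `O` is not contained in a member of the cover, and `V` is the
union of one of the classes for the set `O` minus a point. -/
def Child (ℬ 𝒰 : Set (Set X)) (zp : Set X → X) (V O : Set X) : Prop :=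
  (¬ ∃ U ∈ 𝒰, O ⊆ U) ∧ V ∈ 𝒲 ℬ 𝒰 (O \ {zp O})

omit [TopologicalSpace X] in
lemma wf (hℬ : HasSubinfiniteRank ℬ) (zp : Set X → X) (hzp : ∀ O, O.Nonempty → zp O ∈ O) (x : X) :
    WellFounded fun V O => Child ℬ 𝒰 zp V O ∧ x ∈ V := by
  classical
  rw [wellFounded_iff_isEmpty_descending_chain]
  constructor
  rintro ⟨f, hf⟩
  -- `f (n + 1)` is a union of a class
  have hsub : ∀ n, f (n + 1) ⊆ f n \ {zp (f n)} := fun n => 𝒲_subset (hf n).1.2
  have hanti : ∀ m n, m ≤ n → f n ⊆ f m := by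
    intro m n hmn
    induction n, hmn using Nat.le_induction with
    | base => exact Subset.rfl
    | succ n _ ih => exact ((hsub n).trans sdiff_subset).trans ih
  obtain ⟨g, hg1, hg2⟩ := exists_seq_of_forall_finset_exists
    (fun p : ℕ × Set X => p.2 ∈ ℬ ∧ x ∈ p.2 ∧ zp (f (p.1 + 1)) ∈ p.2 ∧ p.2 ⊆ f (p.1 + 1) ∧
      ∃ U ∈ 𝒰, p.2 ⊆ U)
    (fun p q => p.1 < q.1 ∧ ¬ q.2 ⊆ p.2) (by
      intro s hs
      obtain ⟨j, hj⟩ : ∃ j, ∀ p ∈ s, p.1 < j := by
        obtain ⟨j, hj⟩ := (s.image Prod.fst).bddAbove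
        exact ⟨j + 1, fun p hp => Nat.lt_succ_of_le (hj (Finset.mem_coe.2
          (Finset.mem_image_of_mem _ hp)))⟩
      have h1 : ∀ p ∈ s, ∃ y ∈ f (j + 1), y ∉ p.2 := by
        intro p hp
        by_contra hcon
        push Not at hcon
        obtain ⟨U, hU, hpU⟩ := (hs p hp).2.2.2.2
        exact (hf (j + 1)).1.1 ⟨U, hU, fun y hy => hpU (hcon y hy)⟩
      have : Nonempty X := ⟨x⟩
      choose! y hy1 hy2 using h1
      have hxj : x ∈ f (j + 1) := (hf j).2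
      have hzj : zp (f (j + 1)) ∈ f (j + 1) := hzp _ ⟨x, hxj⟩
      obtain ⟨B, hB, hBf, hFB, hU⟩ := 𝒲_directed hℬ (hf j).1.2
        (insert x (insert (zp (f (j + 1))) (s.image y))) (by
          rw [Finset.coe_insert, insert_subset_iff, Finset.coe_insert, insert_subset_iff]
          refine ⟨hxj, hzj, ?_⟩
          intro w hw
          obtain ⟨p, hp, rfl⟩ := Finset.mem_image.1 (Finset.mem_coe.1 hw)
          exact hy1 p hp)
      refine ⟨(j, B), ⟨hB, hFB (by simp), hFB (by simp), hBf, hU⟩, fun p hp => ⟨hj p hp, ?_⟩⟩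
      intro hBp
      exact hy2 p hp (hBp (hFB (by
        simp only [Finset.coe_insert, mem_insert_iff, Finset.mem_coe]
        exact Or.inr (Or.inr (Finset.mem_image_of_mem y hp))))))
  refine noseq hℬ x (fun n => (g n).2) (fun n => (hg1 n).1) (fun n => (hg1 n).2.1)
    fun m n hmn => ⟨fun h => ?_, (hg2 m n hmn).2⟩
  have h1 : zp (f ((g m).1 + 1)) ∈ f ((g n).1 + 1) := (hg1 n).2.2.2.1 (h (hg1 m).2.2.1)
  have h2 : f ((g n).1 + 1) ⊆ f ((g m).1 + 1 + 1) :=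
    hanti _ _ (by have := (hg2 m n hmn).1; omega)
  exact (hsub ((g m).1 + 1) (h2 h1)).2 rfl

theorem metacompact_of_base [T1Space X] (hb : IsTopologicalBasis ℬ)
    (hℬ : HasSubinfiniteRank ℬ) : Metacompact X := by
  classical
  intro 𝒰 hU hc
  rcases isEmpty_or_nonempty X with hX | hX
  · exact ⟨∅, by simp, by
      rw [sUnion_empty]
      exact (eq_univ_of_forall fun x => (hX.false x).elim : (∅ : Set X) = univ), fun x =>
      (hX.false x).elim⟩
  let zp : Set X → X := fun O => if h : O.Nonempty then h.some else Classical.arbitrary X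
  have hzp : ∀ O, O.Nonempty → zp O ∈ O := by
    intro O h
    have : zp O = h.some := dif_pos h
    rw [this]
    exact h.some_mem
  have hvp : ∀ O : Set X, ∃ V : Set X, IsOpen O → O.Nonempty →
      IsOpen V ∧ zp O ∈ V ∧ V ⊆ O ∧ ∃ U ∈ 𝒰, V ⊆ U := by
    intro O
    by_cases h : IsOpen O ∧ O.Nonempty
    · obtain ⟨U, hU', hxU⟩ : zp O ∈ ⋃₀ 𝒰 := by rw [hc]; trivial
      exact ⟨O ∩ U, fun _ _ => ⟨h.1.inter (hU U hU'), ⟨hzp O h.2, hxU⟩, inter_subset_left, U, hU',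
        inter_subset_right⟩⟩
    · exact ⟨∅, fun h1 h2 => absurd ⟨h1, h2⟩ h⟩
  choose vp hvp using hvp
  let N : Set (Set X) := {V | ∃ O ∈ 𝒲 ℬ 𝒰 univ,
    Relation.ReflTransGen (fun O V => Child ℬ 𝒰 zp V O) O V}
  have hNchild : ∀ O ∈ N, ∀ V, Child ℬ 𝒰 zp V O → V ∈ N := by
    rintro O ⟨O', hO', h⟩ V hV
    exact ⟨O', hO', h.tail hV⟩
  have hNopen : ∀ O ∈ N, IsOpen O := by
    rintro O ⟨O', hO', h⟩
    rcases Relation.ReflTransGen.cases_tail h with rfl | ⟨V, _, hV⟩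
    · exact 𝒲_open hb hO'
    · exact 𝒲_open hb hV.2
  let 𝒱 : Set (Set X) := {V | ∃ O ∈ N, O.Nonempty ∧
    (((∃ U ∈ 𝒰, O ⊆ U) ∧ V = O) ∨ ((¬ ∃ U ∈ 𝒰, O ⊆ U) ∧ V = vp O))}
  refine ⟨𝒱, ?_, ?_, ?_⟩
  · rintro V ⟨O, hO, hne, (⟨h, rfl⟩ | ⟨h, rfl⟩)⟩
    · exact ⟨hNopen _ hO, h⟩
    · have h1 := hvp O (hNopen O hO) hne
      exact ⟨h1.1, h1.2.2.2⟩
  · apply eq_univ_of_forall
    intro x
    have key : ∀ O, O ∈ N → x ∈ O → x ∈ ⋃₀ 𝒱 := by
      intro O
      induction O using (wf (𝒰 := 𝒰) hℬ zp hzp x).induction with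
      | _ O ih =>
        intro hO hxO
        by_cases hT : ∃ U ∈ 𝒰, O ⊆ U
        · exact ⟨O, ⟨O, hO, ⟨x, hxO⟩, Or.inl ⟨hT, rfl⟩⟩, hxO⟩
        · by_cases hxz : x = zp O
          · refine ⟨vp O, ⟨O, hO, ⟨x, hxO⟩, Or.inr ⟨hT, rfl⟩⟩, ?_⟩
            rw [hxz]
            exact (hvp O (hNopen O hO) ⟨x, hxO⟩).2.1
          · obtain ⟨V, hV, hxV⟩ := 𝒲_cover hb hℬ hU hc
              ((hNopen O hO).sdiff (isClosed_singleton (x := zp O))) (x := x) ⟨hxO, hxz⟩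
            exact ih V ⟨⟨hT, hV⟩, hxV⟩ (hNchild O hO V ⟨hT, hV⟩) hxV
    obtain ⟨V, hV, hxV⟩ := 𝒲_cover hb hℬ hU hc isOpen_univ (mem_univ x)
    exact key V ⟨V, hV, Relation.ReflTransGen.refl⟩ hxV
  · intro x
    -- the descendants of `O` containing `x`
    have hdesc : ∀ O, {V | Relation.ReflTransGen (fun O V => Child ℬ 𝒰 zp V O) O V ∧ x ∈ V}.Finite := by
      intro O
      induction O using (wf (𝒰 := 𝒰) hℬ zp hzp x).induction with
      | _ O ih =>
        have hfin : {V | V ∈ 𝒲 ℬ 𝒰 (O \ {zp O}) ∧ x ∈ V}.Finite := 𝒲_finite hℬ _ x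
        by_cases hT : ∃ U ∈ 𝒰, O ⊆ U
        · refine (finite_singleton O).subset ?_
          rintro V ⟨hV, hxV⟩
          rcases Relation.ReflTransGen.cases_head hV with rfl | ⟨V', hV', _⟩
          · rfl
          · exact absurd hT hV'.1
        · have h1 : (⋃ V ∈ {V | V ∈ 𝒲 ℬ 𝒰 (O \ {zp O}) ∧ x ∈ V},
              {V' | Relation.ReflTransGen (fun O V => Child ℬ 𝒰 zp V O) V V' ∧ x ∈ V'}).Finite :=
            hfin.biUnion fun V hV => ih V ⟨⟨hT, hV.1⟩, hV.2⟩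
          refine ((finite_singleton O).union h1).subset ?_
          rintro V ⟨hV, hxV⟩
          rcases Relation.ReflTransGen.cases_head hV with rfl | ⟨V', hV', hV'V⟩
          · exact Or.inl rfl
          · have hsub : V ⊆ V' := by
              have : ∀ V, Relation.ReflTransGen (fun O V => Child ℬ 𝒰 zp V O) V' V → V ⊆ V' := by
                intro V h
                induction h with
                | refl => exact Subset.rfl
                | tail _ h2 ih' => exact ((𝒲_subset h2.2).trans sdiff_subset).trans ih'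
              exact this V hV'V
            exact Or.inr (mem_iUnion₂.2 ⟨V', ⟨hV'.2, hsub hxV⟩, hV'V, hxV⟩)
    have hNfin : {V | V ∈ N ∧ x ∈ V}.Finite := by
      have h1 : (⋃ O ∈ {V | V ∈ 𝒲 ℬ 𝒰 univ ∧ x ∈ V},
          {V | Relation.ReflTransGen (fun O V => Child ℬ 𝒰 zp V O) O V ∧ x ∈ V}).Finite :=
        (𝒲_finite hℬ _ x).biUnion fun O _ => hdesc O
      refine h1.subset ?_
      rintro V ⟨⟨O, hO, hOV⟩, hxV⟩
      have hsub : ∀ V, Relation.ReflTransGen (fun O V => Child ℬ 𝒰 zp V O) O V → V ⊆ O := by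
        intro V h
        induction h with
        | refl => exact Subset.rfl
        | tail _ h2 ih' => exact ((𝒲_subset h2.2).trans sdiff_subset).trans ih'
      exact mem_iUnion₂.2 ⟨O, ⟨hO, hsub V hOV hxV⟩, hOV, hxV⟩
    refine ((hNfin).union (hNfin.image vp)).subset ?_
    rintro V ⟨⟨O, hO, hne, (⟨h, rfl⟩ | ⟨h, rfl⟩)⟩, hxV⟩
    · exact Or.inl ⟨hO, hxV⟩
    · exact Or.inr ⟨O, ⟨hO, (hvp O (hNopen O hO) hne).2.2.1 hxV⟩, rfl⟩

/-- The trace of a base of subinfinite rank on a subspace has subinfinite rank. -/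
lemma subinfinite_trace {X : Type u} {ℬ : Set (Set X)} (hℬ : HasSubinfiniteRank ℬ) (Y : Set X) :
    HasSubinfiniteRank ((fun B => ((↑) : Y → X) ⁻¹' B) '' ℬ) := by
  intro Γ hΓ hinc hne
  have h1 : ∀ A ∈ Γ, ∃ B ∈ ℬ, ((↑) : Y → X) ⁻¹' B = A := fun A hA => hΓ hA
  choose! b hb1 hb2 using h1
  have hinj : InjOn b Γ := by
    intro A hA A' hA' h
    rw [← hb2 A hA, ← hb2 A' hA', h]
  apply Finite.of_finite_image _ hinj
  obtain ⟨y, hy⟩ := hne
  refine hℬ (b '' Γ) (image_subset_iff.2 hb1) ?_ ⟨y.1, ?_⟩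
  · rintro _ ⟨A, hA, rfl⟩ _ ⟨A', hA', rfl⟩ hne
    have h2 := hinc A hA A' hA' fun h => hne (congrArg b h)
    constructor
    · intro h
      apply h2.1
      rw [← hb2 A hA, ← hb2 A' hA']
      exact preimage_mono h
    · intro h
      apply h2.2
      rw [← hb2 A hA, ← hb2 A' hA']
      exact preimage_mono h
  · rintro _ ⟨A, hA, rfl⟩
    have h3 : y ∈ A := hy A hA
    rw [← hb2 A hA] at h3
    exact h3

end main

/-! ### A `T₀` example -/

/-- The topology on `ℕ` in which the open sets are the initial segments. -/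
@[reducible]
def lowerTop : TopologicalSpace ℕ where
  IsOpen s := IsLowerSet s
  isOpen_univ := isLowerSet_univ
  isOpen_inter _ _ := IsLowerSet.inter
  isOpen_sUnion _ := isLowerSet_sUnion

/-- **Spaces with a base of subinfinite rank.**
(1) Each subspace of a `T₁` space with a base of subinfinite rank is metacompact.
(2) There is a `T₀` topology on the set of natural numbers with a base which is totally ordered by
inclusion (so that it is of subinfinite rank), which is not metacompact. -/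
theorem result :
    (∀ (X : Type u) [TopologicalSpace X] [T1Space X] (ℬ : Set (Set X)), IsTopologicalBasis ℬ →
      HasSubinfiniteRank ℬ → ∀ Y : Set X, Metacompact Y) ∧
    ∃ (t : TopologicalSpace ℕ) (ℬ : Set (Set ℕ)), @T0Space ℕ t ∧ @IsTopologicalBasis ℕ t ℬ ∧
      (∀ A ∈ ℬ, ∀ B ∈ ℬ, A ⊆ B ∨ B ⊆ A) ∧ HasSubinfiniteRank ℬ ∧ ¬ @Metacompact ℕ t := by
  constructor
  · intro X _ _ ℬ hb hℬ Y
    exact metacompact_of_base (ℬ := (fun B => ((↑) : Y → X) ⁻¹' B) '' ℬ)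
      (hb.isInducing Topology.IsInducing.subtypeVal) (subinfinite_trace hℬ Y)
  · let _ : TopologicalSpace ℕ := lowerTop
    have hopen : ∀ s : Set ℕ, IsOpen s ↔ IsLowerSet s := fun s => Iff.rfl
    refine ⟨lowerTop, range fun n : ℕ => Iic n, ?_, ?_, ?_, ?_, ?_⟩
    · refine ⟨fun a b h => ?_⟩
      have h1 := (inseparable_iff_forall_isOpen.1 h (Iic a) ((hopen _).2 (isLowerSet_Iic a))).1
        (mem_Iic.2 le_rfl)
      have h2 := (inseparable_iff_forall_isOpen.1 h (Iic b) ((hopen _).2 (isLowerSet_Iic b))).2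
        (mem_Iic.2 le_rfl)
      exact le_antisymm h2 h1
    · refine isTopologicalBasis_of_isOpen_of_nhds ?_ ?_
      · rintro _ ⟨n, rfl⟩
        exact (hopen _).2 (isLowerSet_Iic n)
      · intro a s ha hs
        exact ⟨Iic a, ⟨a, rfl⟩, mem_Iic.2 le_rfl, fun b hb => (hopen s).1 hs hb ha⟩
    · rintro _ ⟨m, rfl⟩ _ ⟨n, rfl⟩
      rcases le_total m n with h | h
      · exact Or.inl (Iic_subset_Iic.2 h)
      · exact Or.inr (Iic_subset_Iic.2 h)
    · intro Γ hΓ hinc _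
      apply Set.Subsingleton.finite
      intro A hA B hB
      by_contra hne
      obtain ⟨m, rfl⟩ := hΓ hA
      obtain ⟨n, rfl⟩ := hΓ hB
      rcases le_total m n with h | h
      · exact (hinc _ hA _ hB hne).1 (Iic_subset_Iic.2 h)
      · exact (hinc _ hA _ hB hne).2 (Iic_subset_Iic.2 h)
    · intro hM
      obtain ⟨𝒱, h1, h2, h3⟩ := hM (range fun n : ℕ => Iic n) (by
        rintro _ ⟨n, rfl⟩
        exact (hopen _).2 (isLowerSet_Iic n)) (by
        apply eq_univ_of_forall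
        intro n
        exact ⟨Iic n, ⟨n, rfl⟩, mem_Iic.2 le_rfl⟩)
      have hfin := h3 0
      have hbd : ∀ V ∈ 𝒱, BddAbove V := by
        intro V hV
        obtain ⟨_, ⟨n, rfl⟩, hn⟩ := (h1 V hV).2
        exact bddAbove_Iic.mono hn
      have hcov : (univ : Set ℕ) ⊆ ⋃ V ∈ {V | V ∈ 𝒱 ∧ 0 ∈ V}, V := by
        intro n _
        obtain ⟨V, hV, hn⟩ : n ∈ ⋃₀ 𝒱 := by rw [h2]; trivial
        exact mem_iUnion₂.2 ⟨V, ⟨hV, (hopen V).1 (h1 V hV).1 (Nat.zero_le n) hn⟩, hn⟩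
      have hbdd : BddAbove (⋃ V ∈ {V | V ∈ 𝒱 ∧ 0 ∈ V}, V) := by
        rw [hfin.bddAbove_biUnion]
        exact fun V hV => hbd V hV.1
      exact not_bddAbove_univ (hbdd.mono hcov)

end Pool.Agent.Results.MP_03f7b8_gt.SubinfiniteRank
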